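import Pool.Agent.Lib.MP_e69082_gt.Main

/-!
# Discrete quotients of c-minimal groups need not be hereditarily minimal
-/

set_option autoImplicit false

universe u

open Pool.Agent.Lib.MP_e69082_gt

/-- Every infinite elementary abelian `p`-group `H` (with the discrete topology) is the quotient
`G ⧸ N` of a c-minimal group `G` by a compact open normal subgroup `N`; no infinite subgroup of
`G ⧸ N` is minimal, so `G ⧸ N` is not hereditarily minimal. -/
theorem Pool.Agent.Results.MP_e69082_gt.CMinimalQuotient.result (p : ℕ) [Fact p.Prime]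
    (H : Type u) [AddCommGroup H] [Module (ZMod p) H] [Infinite H] :
    ∃ (G : Type u) (_ : Group G) (_ : TopologicalSpace G) (N : Subgroup G) (_ : N.Normal),
      IsCMinimal G ∧ IsCompact (N : Set G) ∧ IsOpen (N : Set G) ∧
        Nonempty (G ⧸ N ≃* Multiplicative H) ∧
        (∀ K : Subgroup (G ⧸ N), Infinite K → ¬ IsMinimalGroup K) ∧
        ¬ IsHereditarilyMinimal (G ⧸ N) :=
  main p H
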